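import Mathlib

/-!
# Torsion-free tensor squares: the linear algebra

`A` is the matrix of an injective map `R ^ m → R ^ n` with cokernel `M`, generated by the `b i`.
-/

set_option autoImplicit false

universe u

namespace Pool.Agent.T2h78.TF

open TensorProduct

variable {R : Type u} [CommRing R]

/-- A matrix which acts injectively on the powers of a module with an element of annihilator `P`, `P`
prime, has a left inverse up to a factor outside `P`. -/
theorem left_inverse {m n : ℕ} (A : Matrix (Fin n) (Fin m) R) (P : Ideal R) [hP : P.IsPrime]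
    (hinj : ∀ x : Fin m → R, (∀ i, ∑ j, A i j * x j ∈ P) → ∀ j, x j ∈ P) :
    ∃ δ : R, δ ∉ P ∧ ∃ B : Matrix (Fin m) (Fin n) R, B * A = δ • (1 : Matrix (Fin m) (Fin m) R) := by
  classical
  let S := R ⧸ P
  let K := FractionRing S
  let q : R →+* S := Ideal.Quotient.mk P
  let h : S →+* K := algebraMap S K
  have hh : Function.Injective h := IsFractionRing.injective S K
  let AK : Matrix (Fin n) (Fin m) K := A.map (h.comp q)
  have hker : LinearMap.ker (Matrix.toLin' AK) = ⊥ := by
    rw [LinearMap.ker_eq_bot']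
    intro x hx
    obtain ⟨d, hd⟩ := IsLocalization.exist_integer_multiples_of_finite (nonZeroDivisors S) x
    choose y hy using hd
    choose z hz using fun j => Ideal.Quotient.mk_surjective (I := P) (y j)
    have hd0 : h (d : S) ≠ 0 := by
      intro h0
      exact nonZeroDivisors.coe_ne_zero d (hh (by rw [h0, map_zero]))
    have h1 : ∀ i, ∑ j, A i j * z j ∈ P := by
      intro i
      rw [← Ideal.Quotient.eq_zero_iff_mem]
      apply hh
      rw [map_zero, map_sum, map_sum]
      have h2 := congrFun hx i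
      simp only [Matrix.toLin'_apply, Matrix.mulVec, dotProduct, Pi.zero_apply] at h2
      have h3 : h (d : S) * ∑ j, AK i j * x j = 0 := by rw [h2, mul_zero]
      rw [← h3, Finset.mul_sum]
      refine Finset.sum_congr rfl fun j _ => ?_
      rw [map_mul, map_mul, hz j]
      have h4 := hy j
      rw [Algebra.smul_def] at h4
      change h (q (A i j)) * h (y j) = h d * (h (q (A i j)) * x j)
      change h (y j) = h d * x j at h4
      rw [h4]
      ring
    have h2 := hinj z h1
    funext j
    have h5 : h (y j) = 0 := by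
      rw [← hz j, Ideal.Quotient.eq_zero_iff_mem.2 (h2 j), map_zero]
    have h4 := hy j
    rw [Algebra.smul_def] at h4
    change h (y j) = h d * x j at h4
    rw [h5] at h4
    exact (mul_eq_zero.1 h4.symm).resolve_left hd0
  obtain ⟨g, hg⟩ := LinearMap.exists_leftInverse_of_injective _ hker
  let BK : Matrix (Fin m) (Fin n) K := LinearMap.toMatrix' g
  have hBA : BK * AK = 1 := by
    have h1 : LinearMap.toMatrix' (g ∘ₗ Matrix.toLin' AK) = 1 := by
      rw [hg, LinearMap.toMatrix'_id]
    rwa [LinearMap.toMatrix'_comp, LinearMap.toMatrix'_toLin'] at h1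
  obtain ⟨d, hd⟩ := IsLocalization.exist_integer_multiples_of_finite (nonZeroDivisors S)
    (fun p : Fin m × Fin n => BK p.1 p.2)
  choose y hy using hd
  choose z hz using fun p => Ideal.Quotient.mk_surjective (I := P) (y p)
  obtain ⟨e, he⟩ := Ideal.Quotient.mk_surjective (I := P) (d : S)
  let Z : Matrix (Fin m) (Fin n) R := fun i j => z (i, j)
  have hZ : (Z * A).map q = (d : S) • (1 : Matrix (Fin m) (Fin m) S) := by
    have hinj2 : Function.Injective (fun X : Matrix (Fin m) (Fin m) S => X.map h) :=
      Matrix.map_injective hh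
    apply hinj2
    ext i j
    simp only [Matrix.map_apply]
    rw [Matrix.mul_apply, map_sum, map_sum]
    have h1 : (BK * AK) i j = (1 : Matrix (Fin m) (Fin m) K) i j := by rw [hBA]
    rw [Matrix.mul_apply] at h1
    rw [Matrix.smul_apply, smul_eq_mul, map_mul]
    have h2 : h ((1 : Matrix (Fin m) (Fin m) S) i j) = (1 : Matrix (Fin m) (Fin m) K) i j := by
      by_cases hij : i = j
      · subst hij; simp
      · rw [Matrix.one_apply_ne hij, Matrix.one_apply_ne hij, map_zero]
    rw [h2, ← h1, Finset.mul_sum]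
    refine Finset.sum_congr rfl fun k _ => ?_
    rw [map_mul, map_mul]
    change h (q (z (i, k))) * h (q (A k j)) = h d * (BK i k * h (q (A k j)))
    have h4 := hy (i, k)
    rw [Algebra.smul_def] at h4
    change h (y (i, k)) = h d * BK i k at h4
    have h5 : q (z (i, k)) = y (i, k) := hz (i, k)
    rw [h5, h4]
    ring
  have hdet : (Z * A).det ∉ P := by
    rw [← Ideal.Quotient.eq_zero_iff_mem]
    change q (Z * A).det ≠ 0
    rw [RingHom.map_det]
    change ((Z * A).map q).det ≠ 0
    rw [hZ, Matrix.det_smul, Matrix.det_one, mul_one]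
    exact pow_ne_zero _ (nonZeroDivisors.coe_ne_zero d)
  refine ⟨(Z * A).det, hdet, (Z * A).adjugate * Z, ?_⟩
  rw [Matrix.mul_assoc, Matrix.adjugate_mul]

/-- The same for a matrix acting injectively on the powers of a module. -/
theorem left_inverse' {m n : ℕ} (A : Matrix (Fin n) (Fin m) R) {N : Type u} [AddCommGroup N]
    [Module R N] (c : N) (P : Ideal R) (hP : P.IsPrime) (hc : ∀ r : R, r ∈ P ↔ r • c = 0)
    (hinj : ∀ y : Fin m → N, (∀ i, ∑ j, A i j • y j = 0) → y = 0) :
    ∃ δ : R, δ ∉ P ∧ ∃ B : Matrix (Fin m) (Fin n) R, B * A = δ • (1 : Matrix (Fin m) (Fin m) R) := by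
  refine left_inverse A P fun x hx j => ?_
  have h1 := hinj (fun j => x j • c) fun i => by
    have h2 := (hc _).1 (hx i)
    rw [Finset.sum_smul] at h2
    rw [← h2]
    refine Finset.sum_congr rfl fun j _ => ?_
    rw [smul_smul]
  exact (hc _).2 (congrFun h1 j)

/-- An injective matrix over a Noetherian ring has a left inverse up to a non-zero-divisor. -/
theorem exists_regular [IsNoetherianRing R] {m n : ℕ} (A : Matrix (Fin n) (Fin m) R)
    (hinj : ∀ x : Fin m → R, (∀ i, ∑ j, A i j * x j = 0) → x = 0) :
    ∃ δ ∈ nonZeroDivisors R, ∃ B : Matrix (Fin m) (Fin n) R,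
      B * A = δ • (1 : Matrix (Fin m) (Fin m) R) := by
  let I : Ideal R :=
    { carrier := {δ | ∃ B : Matrix (Fin m) (Fin n) R, B * A = δ • (1 : Matrix (Fin m) (Fin m) R)}
      add_mem' := by
        rintro a b ⟨B, hB⟩ ⟨C, hC⟩
        exact ⟨B + C, by rw [Matrix.add_mul, hB, hC, add_smul]⟩
      zero_mem' := ⟨0, by simp⟩
      smul_mem' := by
        rintro c a ⟨B, hB⟩
        exact ⟨c • B, by rw [Matrix.smul_mul, hB, smul_smul, smul_eq_mul]⟩ }
  by_contra hcon
  push Not at hcon
  have hdis : Disjoint (I : Set R) (nonZeroDivisors R) := by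
    rw [Set.disjoint_left]
    rintro a ⟨B, hB⟩ ha
    exact hcon a ha B hB
  obtain ⟨P, h, hP⟩ : ∃ P ∈ associatedPrimes R R, I ≤ P :=
    (I.subset_union_prime_finite (associatedPrimes.finite ..) (f := id) 0 0 fun _ h _ _ ↦ h.1).1 <|
    biUnion_associatedPrimes_eq_compl_nonZeroDivisors R ▸ hdis.subset_compl_right
  rw [AssociatedPrimes.mem_iff, isAssociatedPrime_iff] at h
  obtain ⟨prime, x, hx⟩ := h
  obtain ⟨δ, hδ, B, hB⟩ := left_inverse' A x P prime
    (fun r => by rw [hx, Submodule.mem_colon_singleton, Submodule.mem_bot])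
    (fun y hy => hinj y fun i => by simpa [smul_eq_mul] using hy i)
  exact hδ (hP ⟨B, hB⟩)

end Pool.Agent.T2h78.TF
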