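import Mathlib

/-!
# Definitions for the theorem on torsion-free tensor squares
-/

set_option autoImplicit false

universe u

namespace Pool.Agent.T2h78.TF

/-- `M` has a free resolution `0 → F_k → ... → F_1 → F_0 → M → 0` of length `k` by free modules of
finite rank: `M` is free of finite rank if `k = 0`, and the kernel of a surjection
`F_0 = R ^ n → M` has such a resolution of length `k - 1` if `k > 0`. -/
def HasFreeRes (R : Type u) [CommRing R] :
    ℕ → ∀ (M : Type u) [AddCommGroup M] [Module R M], Prop
  | 0, M, _, _ => Module.Free R M ∧ Module.Finite R M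
  | k + 1, M, _, _ => ∃ (n : ℕ) (g : (Fin n → R) →ₗ[R] M),
      Function.Surjective g ∧ HasFreeRes R k (LinearMap.ker g)

/-- The depth of the local ring `R` is at most `1`: there is no regular sequence `x, y` in its maximal
ideal, that is, if `x` is not a zero divisor, then `y` is a zero divisor modulo `x`. -/
def DepthLeOne (R : Type u) [CommRing R] [IsLocalRing R] : Prop :=
  ∀ x ∈ IsLocalRing.maximalIdeal R, ∀ y ∈ IsLocalRing.maximalIdeal R, x ∈ nonZeroDivisors R →
    ∃ z, z ∉ Ideal.span {x} ∧ y * z ∈ Ideal.span {x}

/-- `M` has rank one: over the total ring of fractions `Q` of `R` the module `M ⊗ Q` is free of rank one,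
that is, there is `u` in `M` with `r u ≠ 0` for all `r ≠ 0` in `R`, such that every `x` in `M` has a
multiple `a x`, `a` not a zero divisor, which is a multiple of `u`. -/
def RankOne (R : Type u) [CommRing R] (M : Type u) [AddCommGroup M] [Module R M] : Prop :=
  ∃ u : M, (∀ r : R, r • u = 0 → r = 0) ∧
    ∀ x : M, ∃ a ∈ nonZeroDivisors R, ∃ r : R, a • x = r • u

end Pool.Agent.T2h78.TF
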