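import Pool.Agent.T2h78.TF.Main

/-!
# Torsion-free tensor squares: the module is torsion-free and reflexive
-/

set_option autoImplicit false

universe u

namespace Pool.Agent.T2h78.TF

open TensorProduct

variable {R : Type u} [CommRing R] {M : Type u} [AddCommGroup M] [Module R M]
variable {m n : ℕ} {A : Matrix (Fin n) (Fin m) R} {b : Fin n → M}

/-- Torsion-free, elementwise. -/
def TFree (R : Type u) [CommRing R] (N : Type u) [AddCommGroup N] [Module R N] : Prop :=
  ∀ a ∈ nonZeroDivisors R, ∀ x : N, a • x = 0 → x = 0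

/-- The torsion submodule. -/
def tor (R : Type u) [CommRing R] (M : Type u) [AddCommGroup M] [Module R M] : Submodule R M where
  carrier := {x | ∃ a ∈ nonZeroDivisors R, a • x = 0}
  add_mem' := by
    rintro x y ⟨a, ha, hx⟩ ⟨c, hc, hy⟩
    refine ⟨a * c, mul_mem ha hc, ?_⟩
    rw [smul_add, mul_comm, mul_smul, hx, smul_zero, zero_add, mul_comm, mul_smul, hy, smul_zero]
  zero_mem' := ⟨1, one_mem _, by simp⟩
  smul_mem' := by
    rintro c x ⟨a, ha, hx⟩
    exact ⟨a, ha, by rw [smul_comm, hx, smul_zero]⟩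

/-- If the tensor square is torsion-free, each family of torsion elements is in the image of a family of
torsion elements. -/
theorem Pres.tor_surj (h : Pres m n A b) (hT : TFree R (M ⊗[R] M)) {δ : R}
    (hδ : δ ∈ nonZeroDivisors R) {B : Matrix (Fin m) (Fin n) R}
    (hB : B * A = δ • (1 : Matrix (Fin m) (Fin m) R)) (w : Fin n → M) (hw : ∀ i, w i ∈ tor R M) :
    ∃ y : Fin m → M, (∀ j, y j ∈ tor R M) ∧ ∀ i, w i = ∑ j, A i j • y j := by
  choose a ha haw using hw
  have h1 : ∑ i, b i ⊗ₜ[R] w i = 0 := by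
    refine hT (∏ i, a i) (Submonoid.prod_mem _ fun i _ => ha i) _ ?_
    rw [Finset.smul_sum]
    refine Finset.sum_eq_zero fun i _ => ?_
    rw [← TensorProduct.tmul_smul, ← Finset.prod_erase_mul _ _ (Finset.mem_univ i), mul_smul, haw i,
      smul_zero, TensorProduct.tmul_zero]
  obtain ⟨y, hy⟩ := h.vanish w h1
  refine ⟨y, fun j => ?_, hy⟩
  let q := (tor R M).mkQ
  have h2 : ∀ i, ∑ j, A i j • q (y j) = 0 := by
    intro i
    have h3 : q (w i) = 0 := by
      rw [Submodule.mkQ_apply, Submodule.Quotient.mk_eq_zero]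
      exact ⟨a i, ha i, haw i⟩
    rw [hy i, map_sum] at h3
    rw [← h3]
    exact Finset.sum_congr rfl fun j _ => (map_smul _ _ _).symm
  have h4 := cancel hB (fun j => q (y j)) h2 j
  rw [← map_smul, Submodule.mkQ_apply, Submodule.Quotient.mk_eq_zero] at h4
  obtain ⟨c, hc, hcy⟩ := h4
  exact ⟨c * δ, mul_mem hc hδ, by rw [mul_smul, hcy]⟩

/-- A nonzero finitely generated module over a local ring has a nonzero map to the residue field. -/
theorem exists_functional [IsLocalRing R] (T : Type u) [AddCommGroup T] [Module R T]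
    [Module.Finite R T] (hT : Nontrivial T) :
    ∃ f : T →ₗ[R] IsLocalRing.ResidueField R, ∃ t, f t ≠ 0 := by
  have h1 : Nontrivial (IsLocalRing.ResidueField R ⊗[R] T) := by
    rw [← not_subsingleton_iff_nontrivial, IsLocalRing.subsingleton_tensorProduct,
      not_subsingleton_iff_nontrivial]
    exact hT
  obtain ⟨v, hv⟩ := exists_ne (0 : IsLocalRing.ResidueField R ⊗[R] T)
  obtain ⟨l, hl⟩ : ∃ l : Module.Dual (IsLocalRing.ResidueField R)
      (IsLocalRing.ResidueField R ⊗[R] T), l v ≠ 0 := by
    by_contra hcon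
    push Not at hcon
    exact hv ((Module.forall_dual_apply_eq_zero_iff _ v).1 hcon)
  by_contra hcon
  push Not at hcon
  apply hl
  have h2 : ∀ u : IsLocalRing.ResidueField R ⊗[R] T, l u = 0 := by
    intro u
    induction u using TensorProduct.induction_on with
    | zero => exact map_zero _
    | add x y hx hy => rw [map_add, hx, hy, add_zero]
    | tmul c t =>
      have h3 := hcon ((l.restrictScalars R) ∘ₗ
        (TensorProduct.mk R (IsLocalRing.ResidueField R) T 1)) t
      have h4 : c ⊗ₜ[R] t = c • ((1 : IsLocalRing.ResidueField R) ⊗ₜ[R] t) := by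
        rw [TensorProduct.smul_tmul', smul_eq_mul, mul_one]
      rw [h4, map_smul]
      have h5 : l ((1 : IsLocalRing.ResidueField R) ⊗ₜ[R] t) = 0 := h3
      rw [h5, smul_zero]
  exact h2 v

/-- `M` is torsion-free. -/
theorem Pres.torsionFree [IsLocalRing R] [IsNoetherianRing R] (h : Pres m n A b)
    (hT : TFree R (M ⊗[R] M)) : TFree R M := by
  classical
  obtain ⟨δ, hδ, B, hB⟩ := exists_regular A h.inj
  have hfin : Module.Finite R M := ⟨⟨Finset.univ.image b, by simpa using h.span⟩⟩
  intro a ha x hx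
  by_contra hx0
  have hnt : Nontrivial (tor R M) := ⟨⟨⟨x, ⟨a, ha, hx⟩⟩, 0, fun h0 => hx0 (congrArg Subtype.val h0)⟩⟩
  have hfin2 : Module.Finite R (tor R M) := Module.Finite.of_fg (IsNoetherian.noetherian _)
  obtain ⟨f, t, ht⟩ := exists_functional (R := R) (tor R M) hnt
  -- the matrix is surjective modulo the maximal ideal
  have hsur : ∀ k : Fin n, ∃ z : Fin m → R, ∀ i,
      (if i = k then (1 : R) else 0) - ∑ j, A i j * z j ∈ IsLocalRing.maximalIdeal R := by
    intro k
    obtain ⟨y, hy, hyw⟩ := h.tor_surj hT hδ hB (fun i => if i = k then (t : M) else 0)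
      (fun i => by split_ifs; exacts [t.2, Submodule.zero_mem _])
    let y' : Fin m → tor R M := fun j => ⟨y j, hy j⟩
    have h1 : ∀ i, (if i = k then t else 0) = ∑ j, A i j • y' j := by
      intro i
      apply Subtype.ext
      have h2 := hyw i
      rw [apply_ite Subtype.val]
      simp only [Submodule.coe_sum, Submodule.coe_smul, ZeroMemClass.coe_zero]
      exact h2
    choose z hz using fun j => IsLocalRing.residue_surjective (R := R) ((f t)⁻¹ * f (y' j))
    refine ⟨z, fun i => ?_⟩
    rw [← IsLocalRing.residue_eq_zero_iff, map_sub, map_sum]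
    have h3 : ∑ j, IsLocalRing.residue R (A i j * z j) = (f t)⁻¹ * f (if i = k then t else 0) := by
      rw [h1 i, map_sum, Finset.mul_sum]
      refine Finset.sum_congr rfl fun j _ => ?_
      rw [map_mul, hz j, map_smul, Algebra.smul_def]
      change _ = (f t)⁻¹ * (IsLocalRing.residue R (A i j) * f (y' j))
      ring
    rw [h3]
    by_cases hik : i = k
    · rw [if_pos hik, if_pos hik, map_one, inv_mul_cancel₀ ht, sub_self]
    · rw [if_neg hik, if_neg hik, map_zero, map_zero, mul_zero, sub_self]
  -- so `M` is zero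
  have hM : (⊤ : Submodule R M) ≤ IsLocalRing.maximalIdeal R • (⊤ : Submodule R M) := by
    rw [← h.span, Submodule.span_le]
    rintro _ ⟨k, rfl⟩
    obtain ⟨z, hz⟩ := hsur k
    have h1 : b k = ∑ i, ((if i = k then (1 : R) else 0) - ∑ j, A i j * z j) • b i := by
      have h2 : ∑ i, (∑ j, A i j * z j) • b i = 0 := by
        have h3 : ∀ i, (∑ j, A i j * z j) • b i = ∑ j, z j • (A i j • b i) := by
          intro i
          rw [Finset.sum_smul]
          refine Finset.sum_congr rfl fun j _ => ?_
          rw [smul_smul, mul_comm]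
        rw [Finset.sum_congr rfl fun i _ => h3 i, Finset.sum_comm]
        refine Finset.sum_eq_zero fun j _ => ?_
        rw [← Finset.smul_sum, h.rel j, smul_zero]
      rw [Finset.sum_congr rfl fun i _ => sub_smul _ _ _, Finset.sum_sub_distrib, h2, sub_zero]
      simp
    rw [SetLike.mem_coe, h1]
    exact Submodule.sum_mem _ fun i _ => Submodule.smul_mem_smul (hz i) (by
      rw [h.span]; exact Submodule.mem_top)
  have hM2 : (⊤ : Submodule R M) = ⊥ :=
    Submodule.eq_bot_of_le_smul_of_le_jacobson_bot _ _ hfin.fg_top hM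
      (IsLocalRing.maximalIdeal_le_jacobson _)
  exact hx0 ((Submodule.mem_bot R).1 (hM2 ▸ Submodule.mem_top))

/-- The map to the double dual is injective. -/
theorem Pres.eval_injective [IsNoetherianRing R] (h : Pres m n A b) (hM : TFree R M) :
    Function.Injective (Module.Dual.eval R M) := by
  obtain ⟨δ, hδ, B, hB⟩ := exists_regular A h.inj
  obtain ⟨s, hs⟩ := h.section_ hB
  rw [injective_iff_map_eq_zero]
  intro x hx
  refine hM δ hδ x ?_
  rw [← hs x]
  refine Finset.sum_eq_zero fun i _ => ?_
  have h1 := LinearMap.congr_fun hx ((LinearMap.proj i : (Fin n → R) →ₗ[R] R) ∘ₗ s)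
  have h2 : s x i = 0 := h1
  rw [h2, zero_smul]

/-- The map to the double dual is surjective. -/
theorem Pres.eval_surjective [IsNoetherianRing R] (h : Pres m n A b) (hM : TFree R M)
    (hT : TFree R (M ⊗[R] M)) : Function.Surjective (Module.Dual.eval R M) := by
  obtain ⟨δ, hδ, B, hB⟩ := exists_regular A h.inj
  obtain ⟨s, hs⟩ := h.section_ hB
  have hinj := h.eval_injective hM
  rw [← LinearMap.range_eq_top]
  by_contra htop
  have hnt : Nontrivial (Module.Dual R (Module.Dual R M) ⧸ LinearMap.range (Module.Dual.eval R M)) :=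
    Submodule.Quotient.nontrivial_iff.2 htop
  obtain ⟨P, hP⟩ := associatedPrimes.nonempty R
    (Module.Dual R (Module.Dual R M) ⧸ LinearMap.range (Module.Dual.eval R M))
  rw [AssociatedPrimes.mem_iff, isAssociatedPrime_iff] at hP
  obtain ⟨prime, c, hc⟩ := hP
  have hc' : ∀ r : R, r ∈ P ↔ r • c = 0 := fun r => by
    rw [hc, Submodule.mem_colon_singleton, Submodule.mem_bot]
  obtain ⟨δ', hδ', B', hB'⟩ := left_inverse' A c P prime hc' fun z hz => by
    -- lift to the double dual
    choose ζ hζ using fun j => Submodule.Quotient.mk_surjective _ (z j)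
    have h1 : ∀ i, ∃ w : M, ∑ j, A i j • ζ j = Module.Dual.eval R M w := by
      intro i
      have h2 := hz i
      have h3 : (LinearMap.range (Module.Dual.eval R M)).mkQ (∑ j, A i j • ζ j) = 0 := by
        rw [map_sum, ← h2]
        refine Finset.sum_congr rfl fun j _ => ?_
        rw [map_smul, Submodule.mkQ_apply, hζ j]
      rw [Submodule.mkQ_apply, Submodule.Quotient.mk_eq_zero] at h3
      obtain ⟨w, hw⟩ := h3
      exact ⟨w, hw.symm⟩
    choose w hw using h1
    choose y' hy' using fun j => dual_factor hs (ζ j)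
    have h2 : ∀ i, ∑ j, A i j • y' j = δ • w i := by
      intro i
      apply hinj
      rw [map_sum, map_smul, ← hw i, Finset.smul_sum]
      refine Finset.sum_congr rfl fun j _ => ?_
      rw [map_smul, ← hy' j, smul_comm]
    have h3 : ∑ i, b i ⊗ₜ[R] w i = 0 := by
      refine hT δ hδ _ ?_
      rw [Finset.smul_sum]
      have h4 : ∀ i, δ • (b i ⊗ₜ[R] w i) = ∑ j, (A i j • b i) ⊗ₜ[R] y' j := by
        intro i
        rw [← TensorProduct.tmul_smul, ← h2 i, TensorProduct.tmul_sum]
        refine Finset.sum_congr rfl fun j _ => ?_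
        rw [TensorProduct.smul_tmul]
      rw [Finset.sum_congr rfl fun i _ => h4 i, Finset.sum_comm]
      refine Finset.sum_eq_zero fun j _ => ?_
      rw [← TensorProduct.sum_tmul, h.rel j, TensorProduct.zero_tmul]
    obtain ⟨y, hy⟩ := h.vanish w h3
    have h5 : ∀ i, ∑ j, A i j • (ζ j - Module.Dual.eval R M (y j)) = 0 := by
      intro i
      have h6 : ∀ j, A i j • (ζ j - Module.Dual.eval R M (y j)) =
          A i j • ζ j - Module.Dual.eval R M (A i j • y j) := by
        intro j
        rw [smul_sub, map_smul]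
      rw [Finset.sum_congr rfl fun j _ => h6 j, Finset.sum_sub_distrib, hw i, ← map_sum, ← hy i,
        sub_self]
    funext j
    have h7 := cancel hB _ h5 j
    have h8 : ζ j - Module.Dual.eval R M (y j) = 0 := by
      ext f
      have h9 := LinearMap.congr_fun h7 f
      rw [LinearMap.smul_apply, smul_eq_mul, LinearMap.zero_apply, mul_comm] at h9
      exact (mem_nonZeroDivisors_iff_right.1 hδ) _ h9
    rw [sub_eq_zero] at h8
    rw [← hζ j, h8, Pi.zero_apply, Submodule.Quotient.mk_eq_zero]
    exact ⟨y j, rfl⟩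
  obtain ⟨s', hs'⟩ := h.section_ hB'
  obtain ⟨ζ, hζ⟩ := Submodule.Quotient.mk_surjective _ c
  obtain ⟨x, hx⟩ := dual_factor hs' ζ
  refine hδ' ((hc' _).2 ?_)
  rw [← hζ, ← Submodule.Quotient.mk_smul, hx, Submodule.Quotient.mk_eq_zero]
  exact ⟨x, rfl⟩

/-- `M` is reflexive. -/
theorem Pres.reflexive [IsLocalRing R] [IsNoetherianRing R] (h : Pres m n A b)
    (hT : TFree R (M ⊗[R] M)) : Module.IsReflexive R M :=
  ⟨⟨h.eval_injective (h.torsionFree hT), h.eval_surjective (h.torsionFree hT) hT⟩⟩

end Pool.Agent.T2h78.TF
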