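import Pool.Agent.T2h78.TF.Def
import Pool.Agent.T2h78.TF.Steps

/-!
# Torsion-free tensor squares: free resolutions over local rings of depth at most one
-/

set_option autoImplicit false

universe u

namespace Pool.Agent.T2h78.TF

open TensorProduct

variable {R : Type u} [CommRing R]

/-- The presentation of a module given by a free resolution of length one. -/
theorem exists_pres [IsLocalRing R] {M : Type u} [AddCommGroup M] [Module R M] (n : ℕ)
    (g : (Fin n → R) →ₗ[R] M) (hg : Function.Surjective g) (hfree : Module.Free R (LinearMap.ker g))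
    (hfin : Module.Finite R (LinearMap.ker g)) :
    ∃ (m : ℕ) (A : Matrix (Fin n) (Fin m) R) (b : Fin n → M), Pres m n A b := by
  classical
  let B := Module.finBasis R (LinearMap.ker g)
  have hgv : ∀ v : Fin n → R, g v = ∑ i, v i • g (Pi.single i 1) := by
    intro v
    conv_lhs => rw [← Finset.univ_sum_single v]
    rw [map_sum]
    refine Finset.sum_congr rfl fun i _ => ?_
    rw [← map_smul]
    congr 1
    ext j
    by_cases hj : j = i
    · subst hj; simp
    · simp [hj]
  refine ⟨_, fun i j => (B j : Fin n → R) i, fun i => g (Pi.single i 1), ?_, ?_, ?_, ?_⟩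
  · intro x hx
    have h1 : ∑ j, x j • B j = 0 := by
      apply Subtype.ext
      funext i
      rw [Submodule.coe_sum, Finset.sum_apply]
      show _ = (0 : R)
      rw [← hx i]
      refine Finset.sum_congr rfl fun j _ => ?_
      rw [Submodule.coe_smul, Pi.smul_apply, smul_eq_mul, mul_comm]
    funext j
    exact (Fintype.linearIndependent_iff.1 B.linearIndependent) x h1 j
  · intro j
    have h1 := (B j).2
    rw [LinearMap.mem_ker, hgv] at h1
    exact h1
  · intro v hv
    rw [← hgv] at hv
    have hv' : v ∈ LinearMap.ker g := hv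
    refine ⟨fun j => B.repr ⟨v, hv'⟩ j, fun i => ?_⟩
    have h1 := B.sum_repr ⟨v, hv'⟩
    have h2 := congrFun (congrArg Subtype.val h1) i
    rw [Submodule.coe_sum, Finset.sum_apply] at h2
    refine h2.symm.trans ?_
    refine Finset.sum_congr rfl fun j _ => ?_
    rw [Submodule.coe_smul, Pi.smul_apply, smul_eq_mul, mul_comm]
  · rw [eq_top_iff]
    intro x _
    obtain ⟨v, rfl⟩ := hg x
    rw [hgv]
    exact Submodule.sum_mem _ fun i _ => Submodule.smul_mem _ _ (Submodule.subset_span ⟨i, rfl⟩)

/-- The socle of a local ring of depth at most one, or of its quotient by a regular element. -/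
theorem exists_socle [IsLocalRing R] [IsNoetherianRing R] (h : DepthLeOne R) :
    (∃ y : R, y ≠ 0 ∧ ∀ r ∈ IsLocalRing.maximalIdeal R, r * y = 0) ∨
    ∃ s ∈ nonZeroDivisors R, ∃ y : R, y ∉ Ideal.span {s} ∧
      ∀ r ∈ IsLocalRing.maximalIdeal R, r * y ∈ Ideal.span {s} := by
  by_cases hs : ∃ s ∈ IsLocalRing.maximalIdeal R, s ∈ nonZeroDivisors R
  · obtain ⟨s, hs1, hs2⟩ := hs
    right
    refine ⟨s, hs2, ?_⟩
    let q := Ideal.Quotient.mk (Ideal.span {s})
    let I : Ideal (R ⧸ Ideal.span {s}) := (IsLocalRing.maximalIdeal R).map q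
    have hdis : Disjoint (I : Set (R ⧸ Ideal.span {s})) (nonZeroDivisors (R ⧸ Ideal.span {s})) := by
      rw [Set.disjoint_left]
      intro a ha hna
      obtain ⟨r, hr, rfl⟩ := (Ideal.mem_map_iff_of_surjective q Ideal.Quotient.mk_surjective).1 ha
      obtain ⟨z, hz, hrz⟩ := h s hs1 r hr hs2
      apply hz
      rw [← Ideal.Quotient.eq_zero_iff_mem]
      refine (mem_nonZeroDivisors_iff_right.1 hna) _ ?_
      change q z * q r = 0
      rw [← map_mul, mul_comm]
      exact Ideal.Quotient.eq_zero_iff_mem.2 hrz
    obtain ⟨z, hz, hz0⟩ := SetLike.exists_of_lt (Ideal.bot_lt_annihilator_of_disjoint_nonZeroDivisors hdis)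
    obtain ⟨y, rfl⟩ := Ideal.Quotient.mk_surjective z
    refine ⟨y, fun hy => hz0 ?_, fun r hr => ?_⟩
    · rw [Ideal.Quotient.eq_zero_iff_mem.2 hy]; exact Submodule.zero_mem _
    · rw [Submodule.mem_annihilator] at hz
      have h1 := hz (q r) (Ideal.mem_map_of_mem q hr)
      rw [smul_eq_mul] at h1
      rw [← Ideal.Quotient.eq_zero_iff_mem, map_mul, mul_comm]
      exact h1
  · left
    push Not at hs
    have hdis : Disjoint (IsLocalRing.maximalIdeal R : Set R) (nonZeroDivisors R) := by
      rw [Set.disjoint_left]
      intro a ha hna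
      exact hs a ha hna
    obtain ⟨y, hy, hy0⟩ := SetLike.exists_of_lt (Ideal.bot_lt_annihilator_of_disjoint_nonZeroDivisors hdis)
    refine ⟨y, fun h0 => hy0 (by rw [h0]; exact Submodule.zero_mem _), fun r hr => ?_⟩
    rw [Submodule.mem_annihilator] at hy
    have h1 := hy r hr
    rw [smul_eq_mul] at h1
    rw [mul_comm]
    exact h1

/-- Over a local ring of depth at most one a torsion-free module with a free resolution of length one is
free. -/
theorem Pres.free [IsLocalRing R] [IsNoetherianRing R] (hd : DepthLeOne R) {N : Type u}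
    [AddCommGroup N] [Module R N] {m n : ℕ} {A : Matrix (Fin n) (Fin m) R} {b : Fin n → N}
    (h : Pres m n A b) (hN : TFree R N) : Module.Free R N := by
  obtain ⟨δ, hδ, B, hB⟩ := left_inverse A (IsLocalRing.maximalIdeal R) fun x hx j => by
    by_contra hj
    have hu : IsUnit (x j) := by
      by_contra hnu
      exact hj ((IsLocalRing.mem_maximalIdeal _).2 hnu)
    obtain ⟨v, hv⟩ := hu.exists_left_inv
    have hsum : ∀ (y : R) (i : Fin n), ∑ j, A i j * (y * x j) = (∑ j, A i j * x j) * y := by
      intro y i
      rw [Finset.sum_mul]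
      refine Finset.sum_congr rfl fun j _ => ?_
      ring
    rcases exists_socle hd with ⟨y, hy0, hy⟩ | ⟨s, hs, y, hy0, hy⟩
    · have h1 := h.inj (fun j => y * x j) fun i => by rw [hsum, hy _ (hx i)]
      apply hy0
      have h2 : y * x j = 0 := congrFun h1 j
      calc y = (y * x j) * v := by rw [mul_assoc, mul_comm (x j) v, hv, mul_one]
        _ = 0 := by rw [h2, zero_mul]
    · choose w hw using fun i => Ideal.mem_span_singleton'.1 (hy _ (hx i))
      have h1 : s • ∑ i, w i • b i = 0 := by
        have h2 : ∀ i, s • (w i • b i) = ∑ j, (y * x j) • (A i j • b i) := by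
          intro i
          rw [smul_smul, mul_comm s, hw i, ← hsum, Finset.sum_smul]
          refine Finset.sum_congr rfl fun j _ => ?_
          rw [smul_smul, mul_comm]
        rw [Finset.smul_sum, Finset.sum_congr rfl fun i _ => h2 i, Finset.sum_comm]
        refine Finset.sum_eq_zero fun j _ => ?_
        rw [← Finset.smul_sum, h.rel j, smul_zero]
      obtain ⟨w', hw'⟩ := h.exact w (hN s hs _ h1)
      have h3 := h.inj (fun j => y * x j - w' j * s) fun i => by
        have h4 : ∀ j, A i j * (y * x j - w' j * s) = A i j * (y * x j) - (A i j * w' j) * s := by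
          intro j; ring
        rw [Finset.sum_congr rfl fun j _ => h4 j, Finset.sum_sub_distrib, hsum, ← Finset.sum_mul,
          ← hw' i, hw i, sub_self]
      apply hy0
      have h5 : y * x j - w' j * s = 0 := congrFun h3 j
      rw [sub_eq_zero] at h5
      have h6 : y = (w' j * v) * s := by
        calc y = (y * x j) * v := by rw [mul_assoc, mul_comm (x j) v, hv, mul_one]
          _ = (w' j * v) * s := by rw [h5]; ring
      rw [h6]
      exact Ideal.mem_span_singleton'.2 ⟨_, rfl⟩
  have hu : IsUnit δ := by
    by_contra hnu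
    exact hδ ((IsLocalRing.mem_maximalIdeal _).2 hnu)
  obtain ⟨v, hv⟩ := hu.exists_left_inv
  obtain ⟨s, hs⟩ := h.section_ hB
  have hfin : Module.Finite R N := by
    classical
    exact ⟨⟨Finset.univ.image b, by simpa using h.span⟩⟩
  have hproj : Module.Projective R N :=
    Module.Projective.of_split s (v • Fintype.linearCombination R b) (by
      ext x
      show v • (∑ i, s x i • b i) = x
      rw [hs, smul_smul, hv, one_smul])
  exact Module.free_of_flat_of_isLocalRing

/-- Over a local ring of depth at most one a torsion-free module with a finite free resolution is free. -/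
theorem free_of_res [IsLocalRing R] [IsNoetherianRing R] (hd : DepthLeOne R) (k : ℕ) :
    ∀ (N : Type u) [AddCommGroup N] [Module R N], HasFreeRes R k N → TFree R N →
      Module.Free R N := by
  induction k with
  | zero => intro N _ _ hN _; exact hN.1
  | succ k ih =>
    intro N _ _ hN hT
    obtain ⟨n, g, hg, hK⟩ := hN
    have hKT : TFree R (LinearMap.ker g) := by
      intro a ha x hx
      apply Subtype.ext
      funext i
      have h1 := congrFun (congrArg Subtype.val hx) i
      have h2 : a * (x : Fin n → R) i = 0 := h1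
      rw [mul_comm] at h2
      exact (mem_nonZeroDivisors_iff_right.1 ha) _ h2
    have hfree := ih (LinearMap.ker g) hK hKT
    have hfin : Module.Finite R (LinearMap.ker g) := Module.Finite.of_fg (IsNoetherian.noetherian _)
    obtain ⟨m, A, b, hP⟩ := exists_pres n g hg hfree hfin
    exact hP.free hd hT

/-- A finitely generated module of rank one with torsion-free tensor square is free. -/
theorem rankOne_free [IsLocalRing R] [IsNoetherianRing R] (M : Type u) [AddCommGroup M] [Module R M]
    [Module.Finite R M] (h : RankOne R M) (hT : TFree R (M ⊗[R] M)) : Module.Free R M := by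
  obtain ⟨u, hu, hx⟩ := h
  have hswap : ∀ x y : M, x ⊗ₜ[R] y = y ⊗ₜ[R] x := by
    intro x y
    obtain ⟨a, ha, r, har⟩ := hx x
    obtain ⟨c, hc, s, hcs⟩ := hx y
    rw [← sub_eq_zero]
    refine hT (a * c) (mul_mem ha hc) _ ?_
    have h1 : (a * c) • (x ⊗ₜ[R] y) = (a • x) ⊗ₜ[R] (c • y) := by
      rw [TensorProduct.tmul_smul, ← TensorProduct.smul_tmul', smul_smul, mul_comm]
    have h2 : (a * c) • (y ⊗ₜ[R] x) = (c • y) ⊗ₜ[R] (a • x) := by
      rw [TensorProduct.tmul_smul, ← TensorProduct.smul_tmul', smul_smul]
    rw [smul_sub, h1, h2, har, hcs, TensorProduct.tmul_smul, ← TensorProduct.smul_tmul',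
      TensorProduct.tmul_smul, ← TensorProduct.smul_tmul', smul_smul, smul_smul, mul_comm, sub_self]
  have hfun : ∀ (f g : M →ₗ[R] IsLocalRing.ResidueField R) (x y : M), f x * g y = f y * g x := by
    intro f g x y
    have h1 := congrArg ((LinearMap.mul' R (IsLocalRing.ResidueField R)) ∘ₗ TensorProduct.map f g)
      (hswap x y)
    simpa using h1
  have hnt : Nontrivial M := by
    refine ⟨⟨u, 0, fun h0 => ?_⟩⟩
    exact one_ne_zero (hu 1 (by rw [h0, smul_zero]))
  obtain ⟨f, t, ht⟩ := exists_functional (R := R) M hnt
  have htop : Submodule.span R {t} = ⊤ := by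
    by_contra hne
    have hnt2 : Nontrivial (M ⧸ Submodule.span R {t}) := Submodule.Quotient.nontrivial_iff.2 hne
    obtain ⟨g, q, hq⟩ := exists_functional (R := R) (M ⧸ Submodule.span R {t}) hnt2
    obtain ⟨x, rfl⟩ := Submodule.Quotient.mk_surjective _ q
    have h1 := hfun f (g ∘ₗ (Submodule.span R {t}).mkQ) t x
    have h2 : (g ∘ₗ (Submodule.span R {t}).mkQ) t = 0 := by
      rw [LinearMap.comp_apply, Submodule.mkQ_apply,
        (Submodule.Quotient.mk_eq_zero _).2 (Submodule.mem_span_singleton_self t), map_zero]
    rw [h2, mul_zero] at h1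
    exact (mul_ne_zero ht hq) h1
  have hall : ∀ x : M, ∃ r : R, r • t = x := fun x =>
    Submodule.mem_span_singleton.1 (htop ▸ Submodule.mem_top)
  obtain ⟨c, hc⟩ := hall u
  have hbij : Function.Bijective (LinearMap.toSpanSingleton R M t) := by
    constructor
    · rw [injective_iff_map_eq_zero]
      intro r hr
      rw [LinearMap.toSpanSingleton_apply] at hr
      exact hu r (by rw [← hc, smul_comm, hr, smul_zero])
    · intro x
      obtain ⟨r, hr⟩ := hall x
      exact ⟨r, hr⟩
  exact Module.Free.of_equiv (LinearEquiv.ofBijective _ hbij)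

/-- **The main theorem.** -/
theorem main [IsLocalRing R] [IsNoetherianRing R] (M : Type u) [AddCommGroup M] [Module R M] (k : ℕ)
    (hM : HasFreeRes R k M) (hk : k ≤ 1 ∨ DepthLeOne R ∨ RankOne R M)
    (hT : Module.IsTorsionFree R (M ⊗[R] M)) :
    Module.IsReflexive R M ∧ (DepthLeOne R ∨ RankOne R M → Module.Free R M) := by
  have hT' : TFree R (M ⊗[R] M) := by
    intro a ha x hx
    have h1 : IsRegular a := isRegular_iff_mem_nonZeroDivisors.2 ha
    exact (h1.smul_eq_zero_iff_right).1 hx
  have hfinM : Module.Finite R M := by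
    cases k with
    | zero => exact hM.2
    | succ k =>
      obtain ⟨n, g, hg, -⟩ := hM
      exact Module.Finite.of_surjective g hg
  by_cases hone : RankOne R M
  · have hfree := rankOne_free M hone hT'
    exact ⟨inferInstance, fun _ => hfree⟩
  have hM' := hM
  cases k with
  | zero =>
    obtain ⟨h1, h2⟩ := hM
    exact ⟨inferInstance, fun _ => h1⟩
  | succ k =>
    obtain ⟨n, g, hg, hK⟩ := hM
    have hfin : Module.Finite R (LinearMap.ker g) := Module.Finite.of_fg (IsNoetherian.noetherian _)
    have hfree : Module.Free R (LinearMap.ker g) := by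
      rcases hk with hk | hd | hr
      · have hk0 : k = 0 := by omega
        subst hk0
        exact hK.1
      · refine free_of_res hd k _ hK fun a ha x hx => ?_
        apply Subtype.ext
        funext i
        have h1 := congrFun (congrArg Subtype.val hx) i
        have h2 : a * (x : Fin n → R) i = 0 := h1
        rw [mul_comm] at h2
        exact (mem_nonZeroDivisors_iff_right.1 ha) _ h2
      · exact absurd hr hone
    obtain ⟨m, A, b, hP⟩ := exists_pres n g hg hfree hfin
    refine ⟨hP.reflexive hT', fun hd => ?_⟩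
    rcases hd with hd | hr
    · exact free_of_res hd _ M hM' (hP.torsionFree hT')
    · exact absurd hr hone

end Pool.Agent.T2h78.TF
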