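import Pool.Agent.T2h78.TF.Base

/-!
# Torsion-free tensor squares: modules with a free resolution of length one
-/

set_option autoImplicit false

universe u

namespace Pool.Agent.T2h78.TF

open TensorProduct

variable {R : Type u} [CommRing R] {M : Type u} [AddCommGroup M] [Module R M]

/-- The presentation: `M` is generated by the `b i`, the relations are generated by the columns of `A`,
and `A` is injective. -/
structure Pres (m n : ℕ) (A : Matrix (Fin n) (Fin m) R) (b : Fin n → M) : Prop where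
  inj : ∀ x : Fin m → R, (∀ i, ∑ j, A i j * x j = 0) → x = 0
  rel : ∀ j, ∑ i, A i j • b i = 0
  exact : ∀ v : Fin n → R, ∑ i, v i • b i = 0 → ∃ x : Fin m → R, ∀ i, v i = ∑ j, A i j * x j
  span : Submodule.span R (Set.range b) = ⊤

variable {m n : ℕ} {A : Matrix (Fin n) (Fin m) R} {b : Fin n → M}

/-- The equational criterion for vanishing in `M ⊗ N`. -/
theorem Pres.vanish (h : Pres m n A b) {N : Type u} [AddCommGroup N] [Module R N] (w : Fin n → N)
    (hw : ∑ i, b i ⊗ₜ[R] w i = 0) : ∃ y : Fin m → N, ∀ i, w i = ∑ j, A i j • y j := by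
  obtain ⟨k, a, y, h1, h2⟩ := TensorProduct.vanishesTrivially_of_sum_tmul_eq_zero R h.span hw
  choose x hx using fun j => h.exact (fun i => a i j) (h2 j)
  refine ⟨fun j => ∑ l, x l j • y l, fun i => ?_⟩
  rw [h1 i]
  have h3 : ∀ l, a i l • y l = ∑ j, A i j • (x l j • y l) := by
    intro l
    rw [hx l i, Finset.sum_smul]
    refine Finset.sum_congr rfl fun j _ => ?_
    rw [smul_smul]
  rw [Finset.sum_congr rfl fun l _ => h3 l, Finset.sum_comm]
  refine Finset.sum_congr rfl fun j _ => ?_
  rw [Finset.smul_sum]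

/-- Multiplication by the left inverse. -/
theorem cancel {B : Matrix (Fin m) (Fin n) R} {δ : R}
    (hB : B * A = δ • (1 : Matrix (Fin m) (Fin m) R)) {N : Type u} [AddCommGroup N] [Module R N]
    (y : Fin m → N) (hy : ∀ i, ∑ j, A i j • y j = 0) (j : Fin m) : δ • y j = 0 := by
  have h1 : ∑ i, B j i • ∑ l, A i l • y l = 0 :=
    Finset.sum_eq_zero fun i _ => by rw [hy i, smul_zero]
  rw [← h1]
  have h2 : ∀ i, B j i • ∑ l, A i l • y l = ∑ l, (B j i * A i l) • y l := by
    intro i
    rw [Finset.smul_sum]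
    exact Finset.sum_congr rfl fun l _ => smul_smul _ _ _
  rw [Finset.sum_congr rfl fun i _ => h2 i, Finset.sum_comm]
  have h3 : ∀ l, ∑ i, (B j i * A i l) • y l = (if l = j then δ else 0) • y l := by
    intro l
    rw [← Finset.sum_smul]
    congr 1
    have h4 : (B * A) j l = (δ • (1 : Matrix (Fin m) (Fin m) R)) j l := by rw [hB]
    rw [Matrix.mul_apply] at h4
    rw [h4, Matrix.smul_apply, smul_eq_mul]
    by_cases hl : l = j
    · subst hl; simp
    · rw [if_neg hl, Matrix.one_apply_ne (Ne.symm hl), mul_zero]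
  rw [Finset.sum_congr rfl fun l _ => h3 l]
  simp

/-- A left inverse of `A` up to `δ` gives a factorisation of the multiplication by `δ` on `M`. -/
theorem Pres.section_ (h : Pres m n A b) {B : Matrix (Fin m) (Fin n) R} {δ : R}
    (hB : B * A = δ • (1 : Matrix (Fin m) (Fin m) R)) :
    ∃ s : M →ₗ[R] (Fin n → R), ∀ x, ∑ i, s x i • b i = δ • x := by
  let g : (Fin n → R) →ₗ[R] M := Fintype.linearCombination R b
  have hg : ∀ v, g v = ∑ i, v i • b i := fun v => rfl
  have hsurj : Function.Surjective g := by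
    rw [← LinearMap.range_eq_top, Fintype.range_linearCombination]
    exact h.span
  let σ : (Fin n → R) →ₗ[R] (Fin n → R) := δ • LinearMap.id - Matrix.toLin' (A * B)
  have hσ : LinearMap.ker g ≤ LinearMap.ker σ := by
    intro v hv
    rw [LinearMap.mem_ker] at hv ⊢
    obtain ⟨x, hx⟩ := h.exact v hv
    have hv2 : v = A.mulVec x := by
      funext i
      rw [hx i]
      rfl
    show δ • v - (A * B).mulVec v = 0
    rw [hv2, Matrix.mulVec_mulVec, Matrix.mul_assoc, hB, Matrix.mul_smul, Matrix.mul_one,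
      Matrix.smul_mulVec, sub_self]
  have hAB : ∀ v, g ((A * B).mulVec v) = 0 := by
    intro v
    rw [← Matrix.mulVec_mulVec, hg]
    have h1 : ∀ i, A.mulVec (B.mulVec v) i • b i = ∑ j, (B.mulVec v) j • (A i j • b i) := by
      intro i
      rw [Matrix.mulVec, dotProduct, Finset.sum_smul]
      refine Finset.sum_congr rfl fun j _ => ?_
      rw [smul_smul, mul_comm]
    rw [Finset.sum_congr rfl fun i _ => h1 i, Finset.sum_comm]
    refine Finset.sum_eq_zero fun j _ => ?_
    rw [← Finset.smul_sum, h.rel j, smul_zero]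
  refine ⟨((LinearMap.ker g).liftQ σ hσ) ∘ₗ (g.quotKerEquivOfSurjective hsurj).symm.toLinearMap,
    fun x => ?_⟩
  obtain ⟨v, rfl⟩ := hsurj x
  have h1 : (g.quotKerEquivOfSurjective hsurj).symm (g v) = Submodule.Quotient.mk v := by
    rw [LinearEquiv.symm_apply_eq]
    rfl
  rw [← hg]
  show g (((LinearMap.ker g).liftQ σ hσ) ((g.quotKerEquivOfSurjective hsurj).symm (g v))) = _
  rw [h1]
  show g (δ • v - (A * B).mulVec v) = _
  rw [map_sub, hAB, sub_zero, map_smul]

/-- `δ` kills the cokernel of the map to the double dual. -/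
theorem dual_factor {s : M →ₗ[R] (Fin n → R)} {δ : R} (hs : ∀ x, ∑ i, s x i • b i = δ • x)
    (ξ : Module.Dual R (Module.Dual R M)) : ∃ x : M, δ • ξ = Module.Dual.eval R M x := by
  let p : Fin n → Module.Dual R M := fun i => (LinearMap.proj i : (Fin n → R) →ₗ[R] R) ∘ₗ s
  refine ⟨∑ i, ξ (p i) • b i, ?_⟩
  ext f
  rw [Module.Dual.eval_apply, map_sum, LinearMap.smul_apply]
  have h1 : δ • f = ∑ i, f (b i) • p i := by
    ext x
    rw [LinearMap.smul_apply, ← map_smul, ← hs x, map_sum, LinearMap.sum_apply]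
    refine Finset.sum_congr rfl fun i _ => ?_
    rw [map_smul, LinearMap.smul_apply, smul_eq_mul, smul_eq_mul, mul_comm]
    rfl
  rw [← map_smul, h1, map_sum]
  refine Finset.sum_congr rfl fun i _ => ?_
  rw [map_smul, map_smul, smul_eq_mul, smul_eq_mul, mul_comm]

end Pool.Agent.T2h78.TF
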